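import Pool.Agent.Lib.MP_301213_nt.Main

/-! MP_301213_nt. A linear relation among multiple zeta values of Hoffman words cannot persist
under prepending long common words (prefixes). -/

namespace Pool.Agent.Results.MP_301213_nt.PrefixSign

/-- The multiple zeta value with increasing summation variables,
`ζ(k_1, ..., k_n) = ∑_{0 < m_1 < ... < m_n} 1 / (m_1 ^ k_1 * ... * m_n ^ k_n)`. -/
noncomputable def mzv (k : List ℕ) : ℝ :=
  ∑' m : {m : Fin k.length → ℕ // StrictMono m ∧ ∀ i, 0 < m i},
    ∏ i, ((m.1 i : ℝ) ^ (k.get i))⁻¹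

/-- Let `c` be a nonzero finitely supported family of real coefficients on words all of whose
letters are at least `2` (for instance Hoffman words, with letters `2` and `3`). Then there is `N`
such that `∑_w c_w ζ(v w)` has one and the same strict sign for all words `v` with letters at
least `2` and length at least `N`. -/
theorem result (c : List ℕ →₀ ℝ) (hc : c ≠ 0) (hadm : ∀ w ∈ c.support, ∀ a ∈ w, 2 ≤ a) :
    ∃ N : ℕ,
      (∀ v : List ℕ, (∀ a ∈ v, 2 ≤ a) → N ≤ v.length →
        0 < ∑ w ∈ c.support, c w * mzv (v ++ w)) ∨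
      (∀ v : List ℕ, (∀ a ∈ v, 2 ≤ a) → N ≤ v.length →
        ∑ w ∈ c.support, c w * mzv (v ++ w) < 0) := by
  have h := HofPers.left_long hc hadm
  have e : ∀ k : List ℕ, mzv k = HofPers.T k 0 := fun k => HofPers.real_tsum k
  obtain ⟨N, hN⟩ := h
  refine ⟨N, ?_⟩
  rcases hN with h | h
  · left
    intro v hv hl
    have := h v hv hl
    simp only [e]
    exact this
  · right
    intro v hv hl
    have := h v hv hl
    simp only [e]
    exact this

end Pool.Agent.Results.MP_301213_nt.PrefixSign
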